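import Pool.Agent.H95.OP.GenA
import Pool.Agent.H39.OP.UNlin

set_option autoImplicit false
set_option linter.unusedSectionVars false
set_option linter.unusedVariables false

/-!
# Generation: `Gam s i (m + 1) = ∑_{x ∈ Z} x • Gam s i m` for `s + i ≤ m`

The Koszul complexes of the variables `x ∈ Z` with coefficients in the graded module `Gam s i` are
exact above degree `s + i` (`LinM`): the homotopy formula for `s = i = 0`, and one letter more by
`N_lin` (`H39/OP/UNlin.lean`).
-/

open MvPolynomial Function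

namespace Pool.Agent.H95.OP

open Pool.Agent.H27.OP Pool.Agent.H39.OP

/-! ### generalities -/

section gen

variable {q : ℕ} {V V' : Type*} [AddCommGroup V] [Module ℂ V] [Module (MvPolynomial (Fin q) ℂ) V]
  [IsScalarTower ℂ (MvPolynomial (Fin q) ℂ) V] [AddCommGroup V'] [Module ℂ V']
  [Module (MvPolynomial (Fin q) ℂ) V'] [IsScalarTower ℂ (MvPolynomial (Fin q) ℂ) V']

/-- `dU` commutes with linear maps which commute with the variables -/
lemma dU_map' (L : V →ₗ[ℂ] V') (hL : ∀ (s : Fin q) (v : V),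
    L ((X s : MvPolynomial (Fin q) ℂ) • v) = (X s : MvPolynomial (Fin q) ℂ) • L v)
    (η : Finset (Fin q) → V) (J : Finset (Fin q)) :
    dU (fun J => L (η J)) J = L (dU η J) := by
  unfold dU
  rw [map_sum]
  refine Finset.sum_congr rfl fun s _ => ?_
  rw [hL, aJ_apply, aJ_apply]
  split_ifs
  · rw [map_zero]
  · rw [map_smul]

lemma abs0 {O : Type*} [Ring O] (m j e t : O) (h1 : m * e = e * m)
    (h2 : t * j = j * t) (h3 : t * m = m * t) (h4 : j * e = -(e * j)) :
    m * j * (e * t) + e * t * (m * j) = 0 := by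
  calc m * j * (e * t) + e * t * (m * j) = m * (j * e) * t + e * (t * m) * j := by noncomm_ring
    _ = m * (-(e * j)) * t + e * (m * t) * j := by rw [h3, h4]
    _ = -(m * e * (j * t)) + (e * m) * (t * j) := by noncomm_ring
    _ = 0 := by rw [h1, h2, neg_add_cancel]

lemma abs1 {O : Type*} [Ring O] (m j e t : O) (h1 : m * e = e * m)
    (h2 : t * j = j * t) (h3 : t * m = m * t + 1) (h4 : j * e = 1 - e * j) :
    m * j * (e * t) + e * t * (m * j) = m * t + e * j := by
  calc m * j * (e * t) + e * t * (m * j) = m * (j * e) * t + e * (t * m) * j := by noncomm_ring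
    _ = m * (1 - e * j) * t + e * (m * t + 1) * j := by rw [h3, h4]
    _ = m * t + e * j + (-(m * e * (j * t)) + (e * m) * (t * j)) := by noncomm_ring
    _ = m * t + e * j := by rw [h1, h2, neg_add_cancel, add_zero]

end gen

section

variable {σ : Type*} [Fintype σ]
variable {F : Type*} [AddCommGroup F] [Module ℂ F] {d : ℕ}
variable {S : Fk σ ℂ (Module.End ℂ F) d} {A : Gr S} {c : σ} {Z : Finset σ}
variable {q : ℕ} {emb : Fin q → σ}

/-! ### the letters as polynomials in the variables of `Z` -/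

section letters

variable (hinj : Injective emb) (hZ : ∀ x, x ∈ Z ↔ x ∈ Set.range emb)

open Classical in
/-- the letters of `c`-degree `t` -/
noncomputable def Gt (σ : Type*) [Fintype σ] (d : ℕ) (c : σ) (Z : Finset σ) (t : ℕ) :
    Finset (σ →₀ ℕ) := (Mo σ d).filter (fun μ => μ c = t ∧ ¬ Bad c Z μ)

lemma mem_Gt {t : ℕ} {μ : σ →₀ ℕ} : μ ∈ Gt σ d c Z t ↔ μ ∈ Mo σ d ∧ μ c = t ∧ ¬ Bad c Z μ := by
  classical
  unfold Gt
  rw [Finset.mem_filter]

/-- the `j`-th letter -/
noncomputable def lt (σ : Type*) [Fintype σ] (d : ℕ) (c : σ) (Z : Finset σ) (t : ℕ)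
    (j : Fin (Gt σ d c Z t).card) : σ →₀ ℕ := ((Gt σ d c Z t).equivFin.symm j : σ →₀ ℕ)

lemma lt_mem {t : ℕ} (j : Fin (Gt σ d c Z t).card) : lt σ d c Z t j ∈ Gt σ d c Z t :=
  ((Gt σ d c Z t).equivFin.symm j).2

lemma sum_lt {M : Type*} [AddCommMonoid M] {t : ℕ} (f : (σ →₀ ℕ) → M) :
    ∑ j, f (lt σ d c Z t j) = ∑ μ ∈ Gt σ d c Z t, f μ := by
  rw [← Finset.sum_coe_sort (Gt σ d c Z t) f]
  exact Equiv.sum_comp (Gt σ d c Z t).equivFin.symm (fun μ => f (μ : σ →₀ ℕ))

/-- the `j`-th form -/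
noncomputable def phi (d : ℕ) (c : σ) (Z : Finset σ) (t : ℕ) (hinj : Injective emb)
    (j : Fin (Gt σ d c Z t).card) : MvPolynomial (Fin q) ℂ :=
  monomial (Finsupp.comapDomain emb ((lt σ d c Z t j).erase c) hinj.injOn) 1

include hZ in
lemma erase_supp {μ : σ →₀ ℕ} (hb : ¬ Bad c Z μ) :
    ((μ.erase c).support : Set σ) ⊆ Set.range emb := by
  classical
  intro x hx
  have hx' : (μ.erase c) x ≠ 0 := Finsupp.mem_support_iff.mp hx
  have hxc : x ≠ c := by
    rintro rfl
    rw [Finsupp.erase_same] at hx'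
    exact hx' rfl
  rw [Finsupp.erase_ne hxc] at hx'
  rw [← hZ]
  by_contra h
  exact hb (Or.inr ⟨x, h, hxc, hx'⟩)

include hZ in
lemma ren_phi {t : ℕ} (j : Fin (Gt σ d c Z t).card) :
    rename emb (phi d c Z t hinj j) = monomial ((lt σ d c Z t j).erase c) 1 := by
  unfold phi
  rw [rename_monomial, Finsupp.mapDomain_comapDomain emb hinj _
    (erase_supp hZ (mem_Gt.mp (lt_mem j)).2.2)]

lemma deg_erase {μ : σ →₀ ℕ} {t : ℕ} (hμ : μ ∈ Mo σ d) (ht : μ c = t) :
    (μ.erase c).degree = d - t := by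
  classical
  have h1 := mem_Mo.mp hμ
  rw [← Finsupp.single_add_erase c μ, map_add, Finsupp.degree_single, ht] at h1
  omega

include hZ in
lemma phi_hom {t : ℕ} (j : Fin (Gt σ d c Z t).card) :
    (phi d c Z t hinj j).IsHomogeneous (d - t) := by
  rw [← IsHomogeneous.rename_isHomogeneous_iff hinj, ren_phi hinj hZ]
  have h := mem_Gt.mp (lt_mem (σ := σ) (d := d) (c := c) (Z := Z) j)
  exact isHomogeneous_monomial _ (deg_erase h.1 h.2.1)

include hZ in
lemma phi_span (hc : c ∉ Z) {t : ℕ} (ht1 : t ≤ 1) (ht : t ≤ d) (p : MvPolynomial (Fin q) ℂ)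
    (hp : p.IsHomogeneous (d - t)) : p ∈ Submodule.span ℂ (Set.range (phi d c Z t hinj)) := by
  classical
  have hcr : c ∉ Set.range emb := fun h => hc ((hZ c).mpr h)
  rw [p.as_sum]
  refine Submodule.sum_mem _ fun ν hν => ?_
  have h6 : monomial ν (coeff ν p) = coeff ν p • monomial ν (1 : ℂ) := by
    rw [smul_monomial, smul_eq_mul, mul_one]
  rw [h6]
  refine Submodule.smul_mem _ _ (Submodule.subset_span ?_)
  have hdeg : ν.degree = d - t := by
    rw [Finsupp.degree_eq_weight_one]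
    exact hp (mem_support_iff.mp hν)
  obtain ⟨μ, hμ⟩ : ∃ μ : σ →₀ ℕ, μ = Finsupp.mapDomain emb ν + Finsupp.single c t := ⟨_, rfl⟩
  have hmc : Finsupp.mapDomain emb ν c = 0 := Finsupp.mapDomain_of_notMem_range _ _ hcr
  have hμc : μ c = t := by
    rw [hμ, Finsupp.add_apply, hmc, Finsupp.single_eq_same, zero_add]
  have hμe : μ.erase c = Finsupp.mapDomain emb ν := by
    ext x
    by_cases hx : x = c
    · subst hx
      rw [Finsupp.erase_same, hmc]
    · rw [Finsupp.erase_ne hx, hμ, Finsupp.add_apply, Finsupp.single_eq_of_ne hx, add_zero]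
  have hμG : μ ∈ Gt σ d c Z t := by
    refine mem_Gt.mpr ⟨?_, hμc, ?_⟩
    · rw [mem_Mo, hμ, map_add, Finsupp.degree_single, Finsupp.degree_mapDomain, hdeg]
      omega
    · rintro (h | ⟨x, hx, hxc, hx0⟩)
      · omega
      · refine hx0 ?_
        rw [hμ, Finsupp.add_apply, Finsupp.single_eq_of_ne hxc, add_zero]
        exact Finsupp.mapDomain_of_notMem_range _ _ fun h => hx ((hZ x).mpr h)
  refine ⟨(Gt σ d c Z t).equivFin ⟨μ, hμG⟩, rename_injective emb hinj ?_⟩
  have h7 : lt σ d c Z t ((Gt σ d c Z t).equivFin ⟨μ, hμG⟩) = μ := by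
    unfold lt
    rw [Equiv.symm_apply_apply]
  rw [ren_phi hinj hZ, h7, hμe, rename_monomial]

end letters

/-! ### the module structure -/

variable [Module (MvPolynomial (Fin q) ℂ) F] [IsScalarTower ℂ (MvPolynomial (Fin q) ℂ) F]

section mod

variable (hact : ∀ (g : MvPolynomial (Fin q) ℂ) (y : F), g • y = S.m (rename emb g) y)
  (hinj : Injective emb) (hZ : ∀ x, x ∈ Z ↔ x ∈ Set.range emb) (hc : c ∉ Z)

include hZ in
lemma pd_rename (g : MvPolynomial (Fin q) ℂ) (x : σ) (hx : x ∉ Z) :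
    pderiv x (rename emb g) = 0 := by
  classical
  induction g using MvPolynomial.induction_on with
  | C a => rw [rename_C, pderiv_C]
  | add p q hp hq => rw [map_add, map_add, hp, hq, add_zero]
  | mul_X p s hp =>
    have hne : emb s ≠ x := by
      rintro rfl
      exact hx ((hZ _).mpr ⟨s, rfl⟩)
    rw [map_mul, Derivation.leibniz, hp, rename_X, pderiv_X_of_ne hne, smul_zero, smul_zero,
      add_zero]

include hact hZ hc in
lemma Gam_grad (s i : ℕ) : GradM q (fun m => Gam A c Z s i m) := by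
  intro K e g y hg hy
  rw [hact]
  exact Gam_m hc hg.rename_isHomogeneous (pd_rename hZ g) hy

include hact hZ hinj hc in
/-- one letter more -/
theorem lin_step {s i s' i' t ρ : ℕ} (hs : s' + t = s + 1) (hi : i' = i + t) (ht : t ≤ 1)
    (htd : t < d) (hl : LinM q (fun m => Gam A c Z s i m) ρ) :
    LinM q (fun m => Gam A c Z s' i' m) (ρ + 1) := by
  classical
  have hN := N_lin (d := d - t) (by omega) (phi d c Z t hinj) (phi_hom hinj hZ)
    (phi_span hinj hZ hc ht (by omega)) (Gam_grad hact hZ hc s i) hl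
  -- the number of letters of `c`-degree `t`
  obtain ⟨n, hn⟩ : ∃ n : ℕ, n = if t = 0 then s' else i' := ⟨_, rfl⟩
  have hn0 : (n : ℂ) ≠ 0 := by
    refine Nat.cast_ne_zero.mpr ?_
    rw [hn]
    split_ifs <;> omega
  have hφ : ∀ (j : Fin (Gt σ d c Z t).card) (y : F),
      phi d c Z t hinj j • y = S.m (monomial ((lt σ d c Z t j).erase c) 1) y := by
    intro j y
    rw [hact, ren_phi hinj hZ]
  have hnm : ∀ {K : ℕ} {y : F}, y ∈ Gam A c Z s' i' K →
      (fun j => S.J (lt σ d c Z t j) y) ∈ NM (phi d c Z t hinj) (fun m => Gam A c Z s i m) K := by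
    intro K y hy
    rw [mem_NM]
    refine ⟨fun j => ?_, ?_⟩
    · have h := mem_Gt.mp (lt_mem (σ := σ) (d := d) (c := c) (Z := Z) j)
      exact Gam_J hs hi h.1 h.2.1 hy
    · have h1 := Gam_dT hc ht hy
      unfold dT at h1
      rw [LinearMap.sum_apply] at h1
      simp only [hφ]
      rw [sum_lt (fun μ => S.m (monomial (μ.erase c) 1) (S.J μ y))]
      exact h1
  obtain ⟨Φ, hΦ⟩ : ∃ Φ : (Fin (Gt σ d c Z t).card → F) →ₗ[ℂ] F,
      ∀ w, Φ w = (n : ℂ)⁻¹ • ∑ j, S.E (lt σ d c Z t j) (w j) :=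
    ⟨(n : ℂ)⁻¹ • ∑ j, (S.E (lt σ d c Z t j)).comp (LinearMap.proj j), fun w => by
      rw [LinearMap.smul_apply, LinearMap.sum_apply]; rfl⟩
  have hup : ∀ {K : ℕ} {w : Fin (Gt σ d c Z t).card → F},
      w ∈ NM (phi d c Z t hinj) (fun m => Gam A c Z s i m) K → Φ w ∈ Gam A c Z s' i' K := by
    intro K w hw
    rw [mem_NM] at hw
    obtain ⟨hw1, hw2⟩ := hw
    rw [hΦ]
    refine Submodule.smul_mem _ _ ?_
    rw [mem_Gam]
    refine ⟨Submodule.sum_mem _ fun j _ => ?_, ?_⟩
    · have h := mem_Gt.mp (lt_mem (σ := σ) (d := d) (c := c) (Z := Z) j)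
      exact SG_E hs hi h.1 h.2.1 h.2.2 (mem_Gam.mp (hw1 j)).1
    · simp only [hφ] at hw2
      have e1 : ∀ j, S.del (S.E (lt σ d c Z t j) (w j))
          = S.m (X c ^ t) (S.m (monomial ((lt σ d c Z t j).erase c) 1) (w j)) := by
        intro j
        have h := mem_Gt.mp (lt_mem (σ := σ) (d := d) (c := c) (Z := Z) j)
        have h2 := LinearMap.congr_fun (S.del_Ee (isHomogeneous_monomial (1 : ℂ)
          (mem_Mo.mp h.1))) (w j)
        rw [Module.End.mul_apply, LinearMap.sub_apply, Module.End.mul_apply,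
          (mem_Gam.mp (hw1 j)).2, map_zero, sub_zero, S.Ee_monomial h.1,
          mon_erase (c := c) (lt σ d c Z t j), h.2.1, map_mul, Module.End.mul_apply] at h2
        exact h2
      rw [map_sum, Finset.sum_congr rfl fun j _ => e1 j, ← map_sum, hw2, map_zero]
  have hid : ∀ {K : ℕ} {y : F}, y ∈ Gam A c Z s' i' K →
      Φ (fun j => S.J (lt σ d c Z t j) y) = y := by
    intro K y hy
    rw [hΦ, sum_lt (fun μ => S.E μ (S.J μ y))]
    have h1 := SG_num hc ht (mem_Gam.mp hy).1
    unfold Gt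
    rw [h1, smul_smul, ← hn, inv_mul_cancel₀ hn0, one_smul]
  obtain ⟨Ψ, hΨ⟩ : ∃ Ψ : F →ₗ[ℂ] (Fin (Gt σ d c Z t).card → F),
      ∀ y j, Ψ y j = S.J (lt σ d c Z t j) y :=
    ⟨LinearMap.pi fun j : Fin (Gt σ d c Z t).card => S.J (lt σ d c Z t j), fun y j => rfl⟩
  have hΨX : ∀ (s : Fin q) (v : F),
      Ψ ((X s : MvPolynomial (Fin q) ℂ) • v) = (X s : MvPolynomial (Fin q) ℂ) • Ψ v := by
    intro s v
    funext j
    rw [hΨ, Pi.smul_apply, hΨ, hact, hact]
    have := LinearMap.congr_fun (S.mJ (rename emb (X s)) (lt σ d c Z t j)) v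
    rw [Module.End.mul_apply, Module.End.mul_apply] at this
    exact this.symm
  intro i0 K hK η hη hsupp hd0
  obtain ⟨ξ', hξ1, hξ2, hξ3⟩ := hN i0 K hK (fun J j => S.J (lt σ d c Z t j) (η J))
    (fun J => hnm (hη J))
    (fun J hJ => by
      funext j
      rw [hsupp J hJ, map_zero]
      rfl)
    (by
      funext J
      have h2 := dU_map' Ψ hΨX η J
      rw [hd0, Pi.zero_apply, map_zero] at h2
      have h3 : (fun J => Ψ (η J)) = fun J j => S.J (lt σ d c Z t j) (η J) := by
        funext J j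
        exact hΨ (η J) j
      rw [h3] at h2
      exact h2)
  refine ⟨fun J => Φ (ξ' J), fun J => hup (hξ1 J), fun J hJ => ?_, ?_⟩
  · show Φ (ξ' J) = 0
    rw [hξ2 J hJ, map_zero]
  · have hX : ∀ (s : Fin q) (v : Fin (Gt σ d c Z t).card → F),
        Φ ((X s : MvPolynomial (Fin q) ℂ) • v) = (X s : MvPolynomial (Fin q) ℂ) • Φ v := by
      intro s v
      have e1 : ∀ j ∈ (Finset.univ : Finset (Fin (Gt σ d c Z t).card)),
          S.E (lt σ d c Z t j) (((X s : MvPolynomial (Fin q) ℂ) • v) j)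
          = (X s : MvPolynomial (Fin q) ℂ) • S.E (lt σ d c Z t j) (v j) := by
        intro j _
        rw [Pi.smul_apply, hact, hact]
        have := LinearMap.congr_fun (S.mE (rename emb (X s)) (lt σ d c Z t j)) (v j)
        rw [Module.End.mul_apply, Module.End.mul_apply] at this
        exact this.symm
      rw [hΦ, hΦ, smul_comm (X s : MvPolynomial (Fin q) ℂ) ((n : ℂ)⁻¹),
        Finset.sum_congr rfl e1, Finset.smul_sum, Finset.smul_sum, Finset.smul_sum]
    funext J
    have h2 := dU_map' Φ hX ξ' J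
    rw [h2, hξ3]
    exact hid (hη J)

/-! ### no letters -/

include hact hinj hZ hc in
/-- the homotopy formula -/
theorem lin_zero : LinM q (fun m => Gam A c Z 0 0 m) 0 := by
  classical
  intro i K _ η hη hsupp hd0
  -- operators on families
  obtain ⟨mm, hmm⟩ : ∃ mm : Fin q → Module.End ℂ (Finset (Fin q) → F),
      mm = fun s => lm ℂ q (S.m (X (emb s))) := ⟨_, rfl⟩
  obtain ⟨tt, htt⟩ : ∃ tt : Fin q → Module.End ℂ (Finset (Fin q) → F),
      tt = fun s => lm ℂ q (S.T (emb s)) := ⟨_, rfl⟩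
  have hmm' : ∀ s f J, mm s f J = S.m (X (emb s)) (f J) := by
    intro s f J; rw [hmm]; rfl
  have htt' : ∀ s f J, tt s f J = S.T (emb s) (f J) := by
    intro s f J; rw [htt]; rfl
  obtain ⟨dd, hdd⟩ : ∃ dd : Module.End ℂ (Finset (Fin q) → F), dd = ∑ s, mm s * aJ ℂ s := ⟨_, rfl⟩
  have hdU : ∀ f : Finset (Fin q) → F, dU f = dd f := by
    intro f
    funext J
    unfold dU
    rw [hdd, LinearMap.sum_apply, Finset.sum_apply]
    refine Finset.sum_congr rfl fun s _ => ?_
    rw [Module.End.mul_apply, hmm', hact, rename_X]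
  have hTM : ∀ s t, tt t * mm s = mm s * tt t
      + (if s = t then (1 : Module.End ℂ (Finset (Fin q) → F)) else 0) := by
    intro s t
    rw [hmm, htt]
    dsimp only
    rw [← map_mul, ← map_mul, S.Tm, map_add]
    congr 1
    by_cases h : s = t
    · subst h
      rw [if_pos rfl, pderiv_X_self, map_one, map_one]
    · rw [if_neg h, pderiv_X_of_ne (fun h' => h (hinj h')), map_zero, map_zero]
  have hpair : ∀ s t, mm s * aJ ℂ s * (aE ℂ t * tt t) + aE ℂ t * tt t * (mm s * aJ ℂ s)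
      = if s = t then mm s * tt s + (aE ℂ s * aJ ℂ s : Module.End ℂ (Finset (Fin q) → F))
        else 0 := by
    intro s t
    have hME : mm s * aE ℂ t = aE ℂ t * mm s := by rw [hmm]; exact lm_aE _ _
    have hTJ : tt t * aJ ℂ s = aJ ℂ s * tt t := by rw [htt]; exact lm_aJ _ _
    have h0 := hTM s t
    by_cases h : s = t
    · subst h
      rw [if_pos rfl] at h0 ⊢
      exact abs1 _ _ _ _ hME hTJ h0 (aJEs s)
    · rw [if_neg h, add_zero] at h0
      rw [if_neg h]
      exact abs0 _ _ _ _ hME hTJ h0 (aJE h)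
  obtain ⟨hh, hhh⟩ : ∃ hh : Module.End ℂ (Finset (Fin q) → F), hh = ∑ t, aE ℂ t * tt t := ⟨_, rfl⟩
  have hhomo : dd * hh + hh * dd
      = ∑ s, mm s * tt s + ∑ s, (aE ℂ s * aJ ℂ s : Module.End ℂ (Finset (Fin q) → F)) := by
    rw [hhh, hdd, Finset.sum_mul_sum, Finset.sum_mul_sum, Finset.sum_comm (f := fun t s =>
      aE ℂ t * tt t * (mm s * aJ ℂ s)), ← Finset.sum_add_distrib, ← Finset.sum_add_distrib]
    refine Finset.sum_congr rfl fun s _ => ?_
    rw [← Finset.sum_add_distrib, Finset.sum_congr rfl fun t _ => hpair s t,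
      Finset.sum_ite_eq Finset.univ s, if_pos (Finset.mem_univ s)]
  have hK0 : ((K + 1 + i : ℕ) : ℂ) ≠ 0 := Nat.cast_ne_zero.mpr (by omega)
  -- the two number operators
  have hn1 : (∑ s, mm s * tt s) η = ((K + 1 : ℕ) : ℂ) • η := by
    funext J
    rw [LinearMap.sum_apply, Finset.sum_apply, Pi.smul_apply]
    have h1 := (mem_Gam.mp (hη J)).1
    obtain ⟨g1, g2, -, -⟩ := mem_SG.mp h1
    rw [← A.eul g1]
    have h2 : ∀ s ∈ (Finset.univ : Finset (Fin q)), (mm s * tt s) η J
        = (fun x => S.m (X x) (S.T x (η J))) (emb s) := by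
      intro s _
      rw [Module.End.mul_apply, hmm', htt']
    rw [Finset.sum_congr rfl h2]
    have h3 := Finset.sum_image (s := (Finset.univ : Finset (Fin q))) (g := emb)
      (f := fun x => S.m (X x) (S.T x (η J))) (fun a _ b _ h => hinj h)
    rw [← h3]
    refine Finset.sum_subset (Finset.subset_univ _) fun x _ hx => ?_
    have : x ∉ Z := by
      intro h
      obtain ⟨s, rfl⟩ := (hZ x).mp h
      exact hx (Finset.mem_image_of_mem _ (Finset.mem_univ s))
    rw [g2 x this, map_zero]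
  have hn2 : (∑ s, (aE ℂ s * aJ ℂ s : Module.End ℂ (Finset (Fin q) → F))) η = (i : ℂ) • η := by
    funext J
    rw [LinearMap.sum_apply, Finset.sum_apply, Pi.smul_apply]
    have h2 : ∀ s ∈ (Finset.univ : Finset (Fin q)),
        (aE ℂ s * aJ ℂ s : Module.End ℂ (Finset (Fin q) → F)) η J
        = if s ∈ J then η J else 0 := by
      intro s _
      rw [Module.End.mul_apply, aEJs_apply]
    rw [Finset.sum_congr rfl h2, ← Finset.sum_filter, Finset.sum_const]
    by_cases hJ : J.card = i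
    · have h3 : (Finset.univ.filter fun s => s ∈ J) = J := by
        ext s; simp
      rw [h3, hJ, ← Nat.cast_smul_eq_nsmul ℂ]
    · rw [hsupp J hJ, smul_zero, smul_zero]
  have hd0' : dd η = 0 := by rw [← hdU, hd0]
  have hmain : dd (hh η) = ((K + 1 + i : ℕ) : ℂ) • η := by
    have h1 := LinearMap.congr_fun hhomo η
    rw [LinearMap.add_apply, Module.End.mul_apply, Module.End.mul_apply, hd0', map_zero,
      add_zero, LinearMap.add_apply, hn1, hn2] at h1
    rw [h1, ← add_smul, ← Nat.cast_add]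
  refine ⟨((K + 1 + i : ℕ) : ℂ)⁻¹ • hh η, fun J => ?_, fun J hJ => ?_, ?_⟩
  · show ((K + 1 + i : ℕ) : ℂ)⁻¹ • hh η J ∈ Gam A c Z 0 0 K
    refine Submodule.smul_mem _ _ ?_
    rw [hhh, LinearMap.sum_apply, Finset.sum_apply]
    refine Submodule.sum_mem _ fun s _ => ?_
    rw [Module.End.mul_apply, aE_apply]
    split_ifs with hs
    · refine Submodule.smul_mem _ _ ?_
      rw [htt']
      have h1 := mem_Gam.mp (hη (J.erase s))
      obtain ⟨g1, g2, g3, g4⟩ := mem_SG.mp h1.1
      have hG := A.GT (x := emb s) g1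
      have hJ0 : ∀ μ, S.J μ (S.T (emb s) (η (J.erase s))) = 0 := fun μ => A.GJ0 hG
      have hT0 : ∀ x, x ∉ Z → S.T x (S.T (emb s) (η (J.erase s))) = 0 := by
        intro x hx
        have := LinearMap.congr_fun (S.TT x (emb s)) (η (J.erase s))
        rw [Module.End.mul_apply, Module.End.mul_apply, g2 x hx, map_zero] at this
        exact this
      refine mem_Gam.mpr ⟨⟨hG, hT0, fun μ _ _ => hJ0 μ, ?_⟩, ?_⟩
      · rw [D_diag, hT0 c hc, map_zero, zero_add, Nat.cast_zero, zero_smul]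
        refine Finset.sum_eq_zero fun μ _ => ?_
        rw [hJ0, map_zero, smul_zero]
      · rw [Fk.del_eq, LinearMap.sum_apply]
        refine Finset.sum_eq_zero fun μ _ => ?_
        rw [Module.End.mul_apply, hJ0, map_zero]
    · exact zero_mem _
  · show ((K + 1 + i : ℕ) : ℂ)⁻¹ • hh η J = 0
    have : hh η J = 0 := by
      rw [hhh, LinearMap.sum_apply, Finset.sum_apply]
      refine Finset.sum_eq_zero fun s _ => ?_
      rw [Module.End.mul_apply, aE_apply]
      split_ifs with hs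
      · have h9 := Finset.card_pos.mpr ⟨s, hs⟩
        rw [htt', hsupp (J.erase s) (by rw [Finset.card_erase_of_mem hs]; omega), map_zero,
          smul_zero]
      · rfl
    rw [this, smul_zero]
  · rw [hdU, map_smul, hmain, smul_smul, inv_mul_cancel₀ hK0, one_smul]

include hact hinj hZ hc in
theorem lin_i (hd : 2 ≤ d) (i : ℕ) : LinM q (fun m => Gam A c Z 0 i m) i := by
  induction i with
  | zero => exact lin_zero hact hinj hZ hc
  | succ i ih =>
    exact lin_step hact hinj hZ hc (s := 0) (i := i) (s' := 0) (i' := i + 1) (t := 1) rfl rfl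
      le_rfl (by omega) ih

include hact hinj hZ hc in
theorem lin_s (hd : 2 ≤ d) (s i : ℕ) : LinM q (fun m => Gam A c Z s i m) (s + i) := by
  induction s with
  | zero =>
    rw [zero_add]
    exact lin_i hact hinj hZ hc hd i
  | succ s ih =>
    have h := lin_step hact hinj hZ hc (s := s) (i := i) (s' := s + 1) (i' := i) (t := 0) rfl rfl
      (Nat.zero_le _) (by omega) ih
    have e1 : s + 1 + i = s + i + 1 := by omega
    rw [e1]
    exact h

end mod

end

/-- **generation** -/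
theorem gam_gen {σ : Type*} [Fintype σ] {F : Type*} [AddCommGroup F] [Module ℂ F] {d : ℕ}
    {S : Fk σ ℂ (Module.End ℂ F) d} {A : Gr S} {c : σ} {Z : Finset σ} (hd : 2 ≤ d) (hc : c ∉ Z)
    {s i m : ℕ} (h : s + i ≤ m) {y : F} (hy : y ∈ Gam A c Z s i (m + 1)) :
    ∃ ζ : σ → F, (∀ x, ζ x ∈ Gam A c Z s i m) ∧ ∑ x ∈ Z, S.m (X x) (ζ x) = y := by
  classical
  obtain ⟨emb, hemb⟩ : ∃ emb : Fin Z.card → σ, emb = fun j => ((Z.equivFin.symm j : Z) : σ) :=
    ⟨_, rfl⟩
  have hinj : Injective emb := by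
    rw [hemb]
    exact Subtype.val_injective.comp Z.equivFin.symm.injective
  have hZ : ∀ x, x ∈ Z ↔ x ∈ Set.range emb := by
    intro x
    rw [hemb]
    constructor
    · intro hx
      refine ⟨Z.equivFin ⟨x, hx⟩, ?_⟩
      dsimp only
      rw [Equiv.symm_apply_apply]
    · rintro ⟨j, rfl⟩
      exact (Z.equivFin.symm j).2
  letI : Module (MvPolynomial (Fin Z.card) ℂ) F :=
    Module.compHom F ((S.m.comp (rename emb)).toRingHom : MvPolynomial (Fin Z.card) ℂ →+*
      Module.End ℂ F)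
  have hact : ∀ (g : MvPolynomial (Fin Z.card) ℂ) (y : F), g • y = S.m (rename emb g) y :=
    fun _ _ => rfl
  haveI : IsScalarTower ℂ (MvPolynomial (Fin Z.card) ℂ) F := ⟨fun t g y => by
    rw [hact, hact, map_smul, map_smul, LinearMap.smul_apply]⟩
  obtain ⟨w, hw1, hw2⟩ := UNlin_gen1 (lin_s hact hinj hZ hc hd s i) h hy
  refine ⟨fun x => if hx : x ∈ Z then w (Z.equivFin ⟨x, hx⟩) else 0, fun x => ?_, ?_⟩
  · dsimp only
    split_ifs with hx
    · exact hw1 _
    · exact zero_mem _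
  · rw [← hw2, ← Finset.sum_coe_sort Z (fun x => S.m (X x)
      (if hx : x ∈ Z then w (Z.equivFin ⟨x, hx⟩) else 0)),
      ← Equiv.sum_comp Z.equivFin.symm]
    refine Finset.sum_congr rfl fun j _ => ?_
    rw [hact, rename_X, dif_pos (Z.equivFin.symm j).2]
    have e1 : Z.equivFin ⟨((Z.equivFin.symm j : Z) : σ), (Z.equivFin.symm j).2⟩ = j := by
      rw [Subtype.coe_eta, Equiv.apply_symm_apply]
    rw [e1, hemb]

end Pool.Agent.H95.OP
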