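import Pool.Agent.H12.OP.T2b

set_option autoImplicit false
set_option linter.unusedSectionVars false

/-!
# Full Ottaviani-Paoletti, part (T2d): peeling of the letters `μ o ≥ 2`
-/

open MvPolynomial

namespace Pool.Agent.H95.OP

open Pool.Agent.H27.OP Pool.Agent.H80.OP Pool.Agent.H20.OPF Pool.Agent.H12.OP

variable {σ k F : Type} [Fintype σ] [Field k] [AddCommGroup F] [Module k F] {e : ℕ}
variable {S : Fk σ k (Module.End k F) (e + 1)} {A : Gr S} {o : σ} {K : BiK k F e}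

/-- `S.J` kills squares -/
lemma JJ0 [CharZero k] (S : Fk σ k (Module.End k F) (e + 1)) (μ : σ →₀ ℕ) (ω : F) :
    S.J μ (S.J μ ω) = 0 := by
  have h1 : S.J μ (S.J μ ω) = -(S.J μ (S.J μ ω)) := by
    have := congrArg (fun T : Module.End k F => T ω) (S.JJ μ μ)
    simpa [Module.End.mul_apply] using this
  have h2 : (2 : k) • S.J μ (S.J μ ω) = 0 := by
    rw [two_smul]
    nth_rewrite 1 [h1]
    exact neg_add_cancel _
  exact (smul_eq_zero.mp h2).resolve_left two_ne_zero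

lemma JJa (S : Fk σ k (Module.End k F) (e + 1)) (μ ν : σ →₀ ℕ) (ω : F) :
    S.J μ (S.J ν ω) = -(S.J ν (S.J μ ω)) := by
  have := congrArg (fun T : Module.End k F => T ω) (S.JJ μ ν)
  simpa [Module.End.mul_apply] using this

lemma JEa (S : Fk σ k (Module.End k F) (e + 1)) {μ ν : σ →₀ ℕ} (hμ : μ ∈ Mo σ (e + 1))
    (hν : ν ∈ Mo σ (e + 1)) (h : μ ≠ ν) (ω : F) :
    S.J μ (S.E ν ω) = -(S.E ν (S.J μ ω)) := by
  have := congrArg (fun T : Module.End k F => T ω) (S.JE μ hμ ν hν h)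
  simpa [Module.End.mul_apply] using this

lemma JEsa (S : Fk σ k (Module.End k F) (e + 1)) {μ : σ →₀ ℕ} (hμ : μ ∈ Mo σ (e + 1)) (ω : F) :
    S.J μ (S.E μ ω) + S.E μ (S.J μ ω) = ω := by
  have := congrArg (fun T : Module.End k F => T ω) (S.JEs μ hμ)
  simp only [Module.End.mul_apply, LinearMap.sub_apply, Module.End.one_apply] at this
  rw [this, sub_add_cancel]

lemma rhoJ (C : Cmp S A o K) (μ : σ →₀ ℕ) (ω : F) : K.rho (S.J μ ω) = S.J μ (K.rho ω) := by
  rw [C.rho_eq, C.rho_eq, A.rho_J]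

lemma dS_E (C : Cmp S A o K) {μ : σ →₀ ℕ} (hμ : μ ∈ Mo σ (e + 1)) (h : μ o ≠ 0) (ω : F) :
    K.dS (S.E μ ω) = -(S.E μ (K.dS ω)) := by
  rw [C.dS_eq, C.dS_eq]
  have h1 : dS S o * S.E μ = -(S.E μ * dS S o) :=
    sumJ_E S ((Mo σ (e + 1)).filter (fun μ => μ o = 0)) (Finset.filter_subset _ _)
    (fun ν => monomial ν 1) hμ (fun h' => h (Finset.mem_filter.mp h').2)
  have := congrArg (fun T : Module.End k F => T ω) h1
  simpa [Module.End.mul_apply] using this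

lemma dA_E (C : Cmp S A o K) {μ : σ →₀ ℕ} (hμ : μ ∈ Mo σ (e + 1)) (h : 1 ≤ μ o) (ω : F) :
    K.dA (S.E μ ω) = S.m (monomial (μ - Finsupp.single o 1) 1) ω - S.E μ (K.dA ω) := by
  rw [C.dA_eq, C.dA_eq]
  have h1 : dA S o * S.E μ = S.m (monomial (μ - Finsupp.single o 1) 1) - S.E μ * dA S o :=
    sumJ_E_self S ((Mo σ (e + 1)).filter (fun μ => 1 ≤ μ o)) (Finset.filter_subset _ _)
    (fun ν => monomial (ν - Finsupp.single o 1) 1) (ν := μ) (Finset.mem_filter.mpr ⟨hμ, h⟩)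
  have := congrArg (fun T : Module.End k F => T ω) h1
  simpa [Module.End.mul_apply] using this

lemma dS_J (C : Cmp S A o K) (μ : σ →₀ ℕ) (ω : F) : K.dS (S.J μ ω) = -(S.J μ (K.dS ω)) := by
  rw [C.dS_eq, C.dS_eq]
  have h1 : dS S o * S.J μ = -(S.J μ * dS S o) :=
    sumJ_J S ((Mo σ (e + 1)).filter (fun μ => μ o = 0)) (fun ν => monomial ν 1) μ
  have := congrArg (fun T : Module.End k F => T ω) h1
  simpa [Module.End.mul_apply] using this

lemma dA_J (C : Cmp S A o K) (μ : σ →₀ ℕ) (ω : F) : K.dA (S.J μ ω) = -(S.J μ (K.dA ω)) := by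
  rw [C.dA_eq, C.dA_eq]
  have h1 : dA S o * S.J μ = -(S.J μ * dA S o) :=
    sumJ_J S ((Mo σ (e + 1)).filter (fun μ => 1 ≤ μ o))
    (fun ν => monomial (ν - Finsupp.single o 1) 1) μ
  have := congrArg (fun T : Module.End k F => T ω) h1
  simpa [Module.End.mul_apply] using this

theorem E_Cl (C : Cmp S A o K) {μ : σ →₀ ℕ} (hμ : μ ∈ Mo σ (e + 1)) (h2 : 2 ≤ μ o) {s b m : ℕ}
    {y : F} (hy : y ∈ Cl K s b m) : S.E μ y ∈ Cl K s (b + 1) m := by
  obtain ⟨h1, h3, h4, h5⟩ := mem_Cl.mp hy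
  obtain ⟨g1, g2⟩ := C.G_iff.mp h1
  refine mem_Cl.mpr ⟨C.G_iff.mpr ⟨A.GE g1, ?_⟩, ?_, ?_, ?_⟩
  · have := congrArg (fun T : Module.End k F => T y) (N0_E1 S o hμ (by omega))
    simp only [Module.End.mul_apply] at this
    rw [this, g2, map_smul]
  · rw [C.rho_E, h3]
  · rw [dS_E C hμ (by omega), h4, map_zero, neg_zero]
  · rw [dA_E C hμ (by omega), map_sub, C.rho_E, h5, map_zero, sub_zero]
    have h6 : 1 ≤ (μ - Finsupp.single o 1 : σ →₀ ℕ) o := by
      simp only [Finsupp.coe_tsub, Pi.sub_apply, Finsupp.single_eq_same]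
      omega
    rw [mono_sub o h6, pow_one, map_mul, Module.End.mul_apply, ← C.c_eq, K.rho_c]

/-- the pieces `J μ`, `μ o ≥ 2` (in fact any `μ o ≥ 1`) preserve closed leading terms -/
lemma J_Cl (C : Cmp S A o K) {μ : σ →₀ ℕ} (hμ : μ ∈ Mo σ (e + 1)) (h2 : μ o ≠ 0) {s b m : ℕ}
    {y : F} (hy : y ∈ Cl K s (b + 1) m) : S.J μ y ∈ Cl K s b m := by
  obtain ⟨h1, h3, h4, h5⟩ := mem_Cl.mp hy
  obtain ⟨g1, g2⟩ := C.G_iff.mp h1
  refine mem_Cl.mpr ⟨C.G_iff.mpr ⟨A.GJ (by rw [← add_assoc] at g1; exact g1), ?_⟩, ?_, ?_, ?_⟩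
  · have := congrArg (fun T : Module.End k F => T y) (N0_J1 S o hμ h2)
    simp only [Module.End.mul_apply] at this
    rw [this, g2, map_smul]
  · rw [rhoJ C, h3]
  · rw [dS_J C, h4, map_zero, neg_zero]
  · rw [dA_J C, map_neg, rhoJ C, h5, map_zero, neg_zero]

theorem CC_le_Cl (C : Cmp S A o K) (s i m j : ℕ) : CC S o K s i m j ≤ Cl K s (i + j) m := by
  induction j with
  | zero => exact fun y hy => (mem_GZ.mp hy).1
  | succ j ih =>
    refine Submodule.span_le.mpr ?_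
    rintro _ ⟨μ, hμ, h2, ω, hω, rfl⟩
    exact E_Cl C hμ h2 (ih hω)

/-- peeling: induction on the set of letters `μ o ≥ 2` which occur,
`y = J_μ E_μ y + E_μ J_μ y` -/
theorem peel [CharZero k] (C : Cmp S A o K) (s b m : ℕ) :
    Cl K s b m ≤ ⨆ (j : ℕ) (i : ℕ) (_ : i + j = b), CC S o K s i m j := by
  classical
  suffices H : ∀ t : Finset (σ →₀ ℕ), t ⊆ (Mo σ (e + 1)).filter (fun μ => 2 ≤ μ o) → ∀ (b : ℕ),
      ∀ y ∈ Cl K s b m, (∀ μ ∈ (Mo σ (e + 1)).filter (fun μ => 2 ≤ μ o), μ ∉ t → S.J μ y = 0) →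
      y ∈ ⨆ (j : ℕ) (i : ℕ) (_ : i + j = b), CC S o K s i m j by
    intro y hy
    exact H _ subset_rfl b y hy (fun μ h h' => absurd h h')
  intro t
  induction t using Finset.induction_on with
  | empty =>
    intro _ b y hy h
    have h1 : y ∈ CC S o K s b m 0 :=
      mem_GZ.mpr ⟨hy, fun μ hμ h2 => h μ (Finset.mem_filter.mpr ⟨hμ, h2⟩) (by simp)⟩
    exact Submodule.mem_iSup_of_mem 0 (Submodule.mem_iSup_of_mem b
      (Submodule.mem_iSup_of_mem (add_zero b) h1))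
  | insert μ t hμt ih =>
    intro hsub b y hy h
    have hsub' : t ⊆ (Mo σ (e + 1)).filter (fun μ => 2 ≤ μ o) :=
      (Finset.subset_insert μ t).trans hsub
    obtain ⟨hμ, h2⟩ := Finset.mem_filter.mp (hsub (Finset.mem_insert_self μ t))
    -- the two parts
    have hy1 : S.J μ (S.E μ y) ∈ Cl K s b m := J_Cl C hμ (by omega) (E_Cl C hμ h2 hy)
    have e1 : ∀ ν ∈ (Mo σ (e + 1)).filter (fun μ => 2 ≤ μ o), ν ∉ t →
        S.J ν (S.J μ (S.E μ y)) = 0 := by
      intro ν hν hνt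
      obtain ⟨hν1, hν2⟩ := Finset.mem_filter.mp hν
      by_cases hνμ : ν = μ
      · rw [hνμ, JJ0]
      · rw [JJa, JEa S hν1 hμ hνμ, h ν hν (by
          rw [Finset.mem_insert]; push Not; exact ⟨hνμ, hνt⟩), map_zero, neg_zero, map_zero,
          neg_zero]
    have i1 := ih hsub' b _ hy1 e1
    have i2 : S.E μ (S.J μ y) ∈ ⨆ (j : ℕ) (i : ℕ) (_ : i + j = b), CC S o K s i m j := by
      rcases b with _ | b
      · rw [C.J_A (mem_Cl.mp hy).1 μ hμ (by omega), map_zero]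
        exact zero_mem _
      · have hy2 : S.J μ y ∈ Cl K s b m := J_Cl C hμ (by omega) hy
        have e2 : ∀ ν ∈ (Mo σ (e + 1)).filter (fun μ => 2 ≤ μ o), ν ∉ t →
            S.J ν (S.J μ y) = 0 := by
          intro ν hν hνt
          by_cases hνμ : ν = μ
          · rw [hνμ, JJ0]
          · rw [JJa, h ν hν (by
              rw [Finset.mem_insert]; push Not; exact ⟨hνμ, hνt⟩), map_zero, neg_zero]
        have i3 := ih hsub' b _ hy2 e2
        have h5 : (⨆ (j : ℕ) (i : ℕ) (_ : i + j = b), CC S o K s i m j) ≤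
            (⨆ (j : ℕ) (i : ℕ) (_ : i + j = b + 1), CC S o K s i m j).comap (S.E μ) := by
          refine iSup_le fun j => iSup_le fun i => iSup_le fun hij => ?_
          intro w hw
          rw [Submodule.mem_comap]
          have h6 : S.E μ w ∈ CC S o K s i m (j + 1) :=
            Submodule.subset_span ⟨μ, hμ, h2, w, hw, rfl⟩
          exact Submodule.mem_iSup_of_mem (j + 1) (Submodule.mem_iSup_of_mem i
            (Submodule.mem_iSup_of_mem (show i + (j + 1) = b + 1 by omega) h6))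
        exact h5 i3
    rw [← JEsa S hμ y]
    exact add_mem i1 i2

theorem kappa_CC (C : Cmp S A o K) {j : ℕ} (Q : KV S o j) (β : Q.V) {s i m : ℕ} {z : F}
    (h : z ∈ GZ S o K s i m) : Q.κ β z ∈ CC S o K s i m j := by
  have h1 := PW_CC (K := K) (l := 0) (Q.span β) (y := z) (s := s) (i := i) (m := m) h
  rwa [zero_add] at h1

lemma CC_le_list {s i m j : ℕ} : CC S o K s i m j ≤ Submodule.span k {y | ∃ L : List (σ →₀ ℕ),
    L.length = j ∧ (∀ μ ∈ L, μ ∈ Mo σ (e + 1) ∧ 2 ≤ μ o) ∧ ∃ z ∈ GZ S o K s i m,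
      y = (L.map S.E).prod z} := by
  induction j with
  | zero =>
    intro y hy
    exact Submodule.subset_span ⟨[], rfl, by simp, y, hy, by simp⟩
  | succ j ih =>
    refine Submodule.span_le.mpr ?_
    rintro _ ⟨μ, hμ, h2, ω, hω, rfl⟩
    have h1 : Submodule.span k {y | ∃ L : List (σ →₀ ℕ),
        L.length = j ∧ (∀ μ ∈ L, μ ∈ Mo σ (e + 1) ∧ 2 ≤ μ o) ∧ ∃ z ∈ GZ S o K s i m,
          y = (L.map S.E).prod z} ≤ (Submodule.span k {y | ∃ L : List (σ →₀ ℕ),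
        L.length = j + 1 ∧ (∀ μ ∈ L, μ ∈ Mo σ (e + 1) ∧ 2 ≤ μ o) ∧ ∃ z ∈ GZ S o K s i m,
          y = (L.map S.E).prod z}).comap (S.E μ) := by
      refine Submodule.span_le.mpr ?_
      rintro _ ⟨L, hl, hL, z, hz, rfl⟩
      refine Submodule.subset_span ⟨μ :: L, by rw [List.length_cons, hl], ?_, z, hz, ?_⟩
      · intro ν hν
        rcases List.mem_cons.mp hν with rfl | hν
        · exact ⟨hμ, h2⟩
        · exact hL ν hν
      · rw [List.map_cons, List.prod_cons, Module.End.mul_apply]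
    exact h1 (ih hω)

theorem CC_le_kappa (C : Cmp S A o K) {j : ℕ} (Q : KV S o j) {s i m : ℕ} :
    CC S o K s i m j ≤ Submodule.span k {y | ∃ β, ∃ z ∈ GZ S o K s i m, y = Q.κ β z} := by
  refine CC_le_list.trans (Submodule.span_mono ?_)
  rintro _ ⟨L, hl, hL, z, hz, rfl⟩
  obtain ⟨β, hβ⟩ := Q.surj L hl hL
  exact ⟨β, z, hz, by rw [hβ]⟩

end Pool.Agent.H95.OP
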