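import Pool.Agent.H95.OP.CycQ
import Pool.Agent.H20.S2.Final2
import Pool.Agent.H20.S3.Meas4
import Pool.Agent.H20.OPF.Exact

/-!
# Reduction to the coefficient degree `2 d`

`two_var` : in two variables the homology of the Koszul complex of the forms of degree `d ≥ 2`
vanishes in all coefficient degrees `K ≥ 2 d`.

`K_red` : if `H_p(2 d) = 0` for `p < P`, then `H_p(2 d + k) = 0` for `p < P + 2 k` (for a fixed
number of variables).  Induction on `k` and `p`: odd letters with `r = 3`
(`H_{p-3}(K) = 0`, `H_{p-2}(K-1) = 0`), and two variables.  `kred` : the same in the notation of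
`Pool.Agent.H20.OPF`.
-/

set_option autoImplicit false
set_option linter.unusedSectionVars false

open MvPolynomial Function

namespace Pool.Agent.H95.OP

open Pool.Agent.H27.OP Pool.Agent.H39.OP Pool.Agent.H34.GP Pool.Agent.H20.S2 Pool.Agent.H20.S3

lemma card_Mo2 (j : ℕ) : (Mo (Fin 2) j).card = j + 1 := by
  have h0 : (Mo (Fin 2) j).card = (2 + j - 1).choose j := by
    have h1 := Finset.card_finsuppAntidiag_nat_eq_choose (s := (Finset.univ : Finset (Fin 2))) j
    rw [Finset.card_univ, Fintype.card_fin] at h1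
    rw [← h1]
    congr 1
    ext μ
    rw [mem_Mo, Finset.mem_finsuppAntidiag, Finsupp.degree_eq_sum]
    simp
  rw [h0]
  have h1 : 2 + j - 1 = j + 1 := by omega
  rw [h1, Nat.choose_symm_add, Nat.choose_one_right]

/-- exactness in two variables -/
theorem two_var {N e a K : ℕ} (B : Bs (Fin 2) ℂ N (e + 2)) (hli : LinearIndependent ℂ B.φ)
    (hsp : Submodule.span ℂ (Set.range B.φ) = homogeneousSubmodule (Fin 2) ℂ (e + 2))
    (hK : 2 * (e + 2) ≤ K) {f : Finset (Fin N) → MvPolynomial (Fin 2) ℂ}
    (hf : f ∈ GK (Fin 2) ℂ N a K) (hz : (SK B).del f = 0) : f ∈ LinearMap.range (SK B).del := by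
  rcases Nat.lt_or_ge (2 * (e + 2)) a with h | h
  · have hN := card_Mo_eq hli hsp
    rw [card_Mo2] at hN
    have h0 : f = 0 := by
      funext I
      refine (hf I).2 ?_
      have h1 := Finset.card_le_univ I
      rw [Fintype.card_fin] at h1
      omega
    rw [h0]
    exact zero_mem _
  · exact exact_K2 B (a := a) (K := K) (by omega) (by omega) (by omega)
      (Submodule.mem_inf.mpr ⟨hf, LinearMap.mem_ker.mpr hz⟩)

/-- vanishing for `K = 2 d` implies vanishing for `K = 2 d + k` in a range which grows with `k` -/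
theorem K_red {e P r : ℕ}
    (h0 : ∀ (N : ℕ) (B : Bs (Fin r) ℂ N (e + 2)) (p : ℕ), p < P →
      ∀ f ∈ ZK B p (2 * (e + 2)), f ∈ LinearMap.range (SK B).del) :
    ∀ (k N : ℕ) (B : Bs (Fin r) ℂ N (e + 2)) (p : ℕ), p < P + 2 * k →
      ∀ f ∈ ZK B p (2 * (e + 2) + k), f ∈ LinearMap.range (SK B).del := by
  intro k
  induction k with
  | zero => exact fun N B p hp f hf => h0 N B p hp f hf
  | succ k ihk =>
    intro N B p
    induction p using Nat.strong_induction_on with
    | _ p ihp =>
      intro hp f hf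
      rcases Nat.lt_or_ge p 3 with h3 | h3
      · exact exact_K2 B (a := p) (K := 2 * (e + 2) + (k + 1)) (by omega) (by omega) (by omega) hf
      · obtain ⟨q, rfl⟩ : ∃ q, p = q + 3 := ⟨p - 3, by omega⟩
        have e1 : 2 * (e + 2) + (k + 1) = (e + 2 + (k + 1)) + (e + 2) := by omega
        rw [e1] at hf
        have hf' := Submodule.mem_inf.mp hf
        refine odd_letters (AK B) (XK B) (fun x : Fin r => (x : ℕ)) (fun _ _ h => h)
          (e := e + 1) (p := q) (r := 3) (m := e + 2 + (k + 1)) rfl (by norm_num) ?_ ?_ ?_ f hf'.1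
          (LinearMap.mem_ker.mp hf'.2)
        · intro w hw hz
          refine ihp q (by omega) (by omega) w ?_
          rw [e1]
          exact Submodule.mem_inf.mpr ⟨hw, LinearMap.mem_ker.mpr hz⟩
        · intro w hw hz
          refine ihk N B (q + 1) (by omega) w ?_
          have e2 : 2 * (e + 2) + k = e + 2 + (k + 1) + (e + 1) := by omega
          rw [e2]
          exact Submodule.mem_inf.mpr ⟨hw, LinearMap.mem_ker.mpr hz⟩
        · intro κ hκ hz w hw hc
          refine cycle_q (q := 1) B (fun N' B' hli hsp g hg hgz => ?_) hκ hz hw ?_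
          · exact two_var B' hli hsp (by omega) hg hgz
          · have h4 : (Finset.univ.filter fun x => w x ≠ 0).card < 3 := by
              convert hc
            omega

theorem kred (d : ℕ) (hd : 2 ≤ d) : Pool.Agent.H20.OPF.KRed d := by
  obtain ⟨e, rfl⟩ : ∃ e, d = e + 2 := ⟨d - 2, by omega⟩
  intro r P h k p hp N B κ hκ hz
  refine K_red (e := e) (P := P + 1) (r := r) (fun N' B' p' hp' f hf => ?_) k N B p (by omega) κ
    (Submodule.mem_inf.mpr ⟨hκ, LinearMap.mem_ker.mpr hz⟩)
  have hf' := Submodule.mem_inf.mp hf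
  exact h p' (by omega) N' B' f hf'.1 (LinearMap.mem_ker.mp hf'.2)

end Pool.Agent.H95.OP
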