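import Pool.Agent.H34.GP.Base3

/-!
# Transfer of exactness to fewer variables

`cycle_q` generalises `Pool.Agent.H34.GP.cycle3` (the proof is the same).
-/

set_option autoImplicit false
set_option linter.unusedSectionVars false

open MvPolynomial Function

namespace Pool.Agent.H95.OP

open Pool.Agent.H27.OP Pool.Agent.H39.OP Pool.Agent.H34.GP

/-- transfer to `q + 1` variables: if the homology at bidegree `(a, K)` vanishes in `q + 1`
variables, then every cycle of this bidegree which is a weight vector with at most `q + 1` nonzero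
weights is a boundary. -/
theorem cycle_q {q r N d a K : ℕ} (B : Bs (Fin r) ℂ N d)
    (hex : ∀ (N' : ℕ) (B' : Bs (Fin (q + 1)) ℂ N' d), LinearIndependent ℂ B'.φ →
      Submodule.span ℂ (Set.range B'.φ) = homogeneousSubmodule (Fin (q + 1)) ℂ d →
      ∀ f ∈ GK (Fin (q + 1)) ℂ N' a K, (SK B').del f = 0 → f ∈ LinearMap.range (SK B').del)
    {κ : Finset (Fin N) → MvPolynomial (Fin r) ℂ} (hκ : κ ∈ GK (Fin r) ℂ N a K)
    (hz : (SK B).del κ = 0) {w : Fin r → ℕ}
    (hw : ∀ x, (SK B).D (X x) x κ = (w x : ℂ) • κ)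
    (h3 : (Finset.univ.filter fun x => w x ≠ 0).card ≤ q + 1) :
    κ ∈ LinearMap.range (SK B).del := by
  classical
  obtain ⟨N', B', hli, hsp⟩ := exists_basis (q + 1) d
  obtain ⟨Fs, hFs⟩ : ∃ Fs : Finset (Fin r), Fs = Finset.univ.filter fun x => w x ≠ 0 := ⟨_, rfl⟩
  rw [← hFs] at h3
  obtain ⟨i, hi⟩ : ∃ i : Fin r → Fin (q + 1), ∀ x ∈ Fs, ∀ y ∈ Fs, i x = i y → x = y := by
    refine ⟨fun x => if h : x ∈ Fs then Fin.castLE h3 (Fs.equivFin ⟨x, h⟩) else 0, ?_⟩
    intro x hx y hy h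
    dsimp only at h
    rw [dif_pos hx, dif_pos hy] at h
    have h1 := Fs.equivFin.injective (Fin.castLE_injective h3 h)
    exact congrArg Subtype.val h1
  obtain ⟨s', hs'⟩ : ∃ s' : Fin r → MvPolynomial (Fin (q + 1)) ℂ,
      s' = fun x => if x ∈ Fs then X (i x) else 0 := ⟨_, rfl⟩
  obtain ⟨s, hs⟩ : ∃ s : Fin (q + 1) → MvPolynomial (Fin r) ℂ,
      s = fun j => if h : ∃ x ∈ Fs, i x = j then X h.choose else 0 := ⟨_, rfl⟩
  have hs'1 : ∀ x, (s' x).IsHomogeneous 1 := by
    intro x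
    rw [hs']
    dsimp only
    split_ifs
    · exact isHomogeneous_X _ _
    · exact isHomogeneous_zero _ _ _
  have hs1 : ∀ j, (s j).IsHomogeneous 1 := by
    intro j
    rw [hs]
    dsimp only
    split_ifs
    · exact isHomogeneous_X _ _
    · exact isHomogeneous_zero _ _ _
  have hsx : ∀ x ∈ Fs, s (i x) = X x := by
    intro x hx
    have h : ∃ y ∈ Fs, i y = i x := ⟨x, hx, rfl⟩
    rw [hs]
    dsimp only
    rw [dif_pos h, hi _ h.choose_spec.1 x hx h.choose_spec.2]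
  have hX : ∀ x ∈ Fs, aeval s (aeval s' (X x : MvPolynomial (Fin r) ℂ)) = X x := by
    intro x hx
    rw [aeval_X, hs']
    dsimp only
    rw [if_pos hx, aeval_X, hsx x hx]
  have hmon : ∀ μ : Fin r →₀ ℕ, (∀ y, y ∉ Fs → μ y = 0) →
      aeval s (aeval s' (monomial μ (1 : ℂ))) = monomial μ 1 := by
    intro μ hμ
    rw [monomial_eq, map_one, one_mul, Finsupp.prod_fintype _ _ (fun _ => pow_zero _), map_prod,
      map_prod]
    refine Finset.prod_congr rfl fun x _ => ?_
    by_cases hx : x ∈ Fs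
    · rw [map_pow, map_pow, hX x hx]
    · rw [hμ x hx, pow_zero, map_one, map_one]
  obtain ⟨P, hP⟩ : ∃ P, P = Psi (SK B') B s' (vac (q + 1) N') := ⟨_, rfl⟩
  obtain ⟨Q, hQ⟩ : ∃ Q, Q = Psi (SK B) B' s (vac r N) := ⟨_, rfl⟩
  have hQP : Q (P κ) = κ := by
    have h1 := supp_ind (AK B) (fun x => x ∈ Fs)
      (LinearMap.eqLocus (Q.comp P) (LinearMap.id)) ?_ ?_ ?_ a K κ w hκ hw ?_
    · exact h1
    · intro f hf
      have hf' : f ∈ GK (Fin r) ℂ N 0 0 := hf
      have h2 : f = (coeff 0 (f ∅)) • vac r N := by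
        funext I
        rw [Pi.smul_apply]
        unfold vac
        by_cases hI : I = ∅
        · rw [if_pos hI, hI, smul_eq_C_mul, mul_one]
          have h3 : (f ∅).totalDegree = 0 := Nat.le_zero.mp (hf' ∅).1.totalDegree_le
          exact (totalDegree_eq_zero_iff_eq_C).mp h3
        · rw [if_neg hI, smul_zero]
          exact (hf' I).2 fun h => hI (Finset.card_eq_zero.mp h)
      show Q (P f) = f
      rw [h2, map_smul, map_smul, hP, hQ, Psi_vac, Psi_vac]
    · intro x hx f hf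
      have hf' : Q (P f) = f := hf
      show Q (P ((SK B).m (X x) f)) = (SK B).m (X x) f
      rw [hP, Psi_m, ← hP, hQ, Psi_m, ← hQ, hf', hX x hx]
    · intro μ hμ hy f hf
      have hf' : Q (P f) = f := hf
      show Q (P ((SK B).E μ f)) = (SK B).E μ f
      rw [← (SK B).Ee_monomial hμ]
      have hh : (monomial μ (1 : ℂ)).IsHomogeneous d :=
        isHomogeneous_monomial _ (mem_Mo.mp hμ)
      rw [hP, Psi_Ee _ _ _ _ hh, ← hP, hQ, Psi_Ee _ _ _ _ (aeval_hom hs'1 hh), ← hQ, hf',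
        hmon μ hy]
    · intro y hy
      by_contra h
      exact hy (by rw [hFs, Finset.mem_filter]; exact ⟨Finset.mem_univ _, h⟩)
  have hPκ : P κ ∈ GK (Fin (q + 1)) ℂ N' a K := by
    rw [hP]
    exact Psi_GK B B' hs'1 hκ
  have hPz : (SK B').del (P κ) = 0 := by
    rw [hP, ← Psi_del (SK B') B s' (vac (q + 1) N') hs'1 (del_vac' B'), hz, map_zero]
  obtain ⟨ω, hω⟩ := hex N' B' hli hsp _ hPκ hPz
  refine ⟨Q ω, ?_⟩
  rw [hQ, ← Psi_del (SK B) B' s (vac r N) hs1 (del_vac' B), hω, ← hQ, hQP]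

end Pool.Agent.H95.OP
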