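import Pool.Agent.H27.OP.Wt
import Pool.Agent.H34.GP.Base3

set_option autoImplicit false
set_option linter.unusedSectionVars false

/-!
# Two species of letters inside the Fock space: the spaces `SG`, `Gam` and the operators on them
-/

open MvPolynomial

namespace Pool.Agent.H95.OP

open Pool.Agent.H27.OP

section

variable {σ k : Type*} [Fintype σ] [Field k] [CharZero k]
variable {F : Type*} [AddCommGroup F] [Module k F] {d : ℕ}
variable {S : Fk σ k (Module.End k F) d} (A : Gr S) (c : σ) (Z : Finset σ)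

/-- letters which do not occur -/
def Bad (c : σ) (Z : Finset σ) (μ : σ →₀ ℕ) : Prop := 2 ≤ μ c ∨ ∃ x, x ∉ Z ∧ x ≠ c ∧ μ x ≠ 0

/-- `s` letters without `c`, `i` letters of `c`-degree one, coefficient of degree `m`, variables in
`Z` -/
def SG (A : Gr S) (c : σ) (Z : Finset σ) (s i m : ℕ) : Submodule k F where
  carrier := {y | y ∈ A.G (s + i) m ∧ (∀ x, x ∉ Z → S.T x y = 0) ∧
    (∀ μ ∈ Mo σ d, Bad c Z μ → S.J μ y = 0) ∧ S.D (X c) c y = (i : k) • y}
  add_mem' := by
    rintro x y ⟨h1, h2, h3, h4⟩ ⟨g1, g2, g3, g4⟩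
    refine ⟨add_mem h1 g1, fun z hz => ?_, fun μ hμ hb => ?_, ?_⟩
    · rw [map_add, h2 z hz, g2 z hz, add_zero]
    · rw [map_add, h3 μ hμ hb, g3 μ hμ hb, add_zero]
    · rw [map_add, h4, g4, smul_add]
  zero_mem' := ⟨zero_mem _, fun _ _ => map_zero _, fun _ _ _ => map_zero _, by simp⟩
  smul_mem' := by
    rintro t x ⟨h1, h2, h3, h4⟩
    refine ⟨Submodule.smul_mem _ _ h1, fun z hz => ?_, fun μ hμ hb => ?_, ?_⟩
    · rw [map_smul, h2 z hz, smul_zero]
    · rw [map_smul, h3 μ hμ hb, smul_zero]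
    · rw [map_smul, h4, smul_comm]

/-- the cycles in `SG` -/
noncomputable def Gam (A : Gr S) (c : σ) (Z : Finset σ) (s i m : ℕ) : Submodule k F :=
  SG A c Z s i m ⊓ LinearMap.ker S.del

variable {A c Z}

lemma mem_SG {s i m : ℕ} {y : F} : y ∈ SG A c Z s i m ↔ y ∈ A.G (s + i) m ∧
    (∀ x, x ∉ Z → S.T x y = 0) ∧ (∀ μ ∈ Mo σ d, Bad c Z μ → S.J μ y = 0) ∧
    S.D (X c) c y = (i : k) • y := Iff.rfl

lemma mem_Gam {s i m : ℕ} {y : F} : y ∈ Gam A c Z s i m ↔ y ∈ SG A c Z s i m ∧ S.del y = 0 := by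
  unfold Gam
  rw [Submodule.mem_inf, LinearMap.mem_ker]

lemma SG_m (hc : c ∉ Z) {s i m e : ℕ} {a : MvPolynomial σ k} (ha : a.IsHomogeneous e)
    (hx : ∀ x, x ∉ Z → pderiv x a = 0) {y : F} (hy : y ∈ SG A c Z s i m) :
    S.m a y ∈ SG A c Z s i (m + e) := by
  obtain ⟨h1, h2, h3, h4⟩ := mem_SG.mp hy
  refine ⟨A.Gm ha h1, fun x hx' => ?_, fun μ hμ hb => ?_, ?_⟩
  · have := LinearMap.congr_fun (S.Tm x a) y
    rw [Module.End.mul_apply, LinearMap.add_apply, Module.End.mul_apply, h2 x hx', hx x hx',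
      map_zero, map_zero, LinearMap.zero_apply, add_zero] at this
    exact this
  · have := LinearMap.congr_fun (S.mJ a μ) y
    rw [Module.End.mul_apply, Module.End.mul_apply, h3 μ hμ hb, map_zero] at this
    exact this.symm
  · have := LinearMap.congr_fun (S.D_m (c := X c) c a) y
    rw [Module.End.mul_apply, LinearMap.add_apply, Module.End.mul_apply, h4, hx c hc, mul_zero,
      map_zero, LinearMap.zero_apply, add_zero, map_smul] at this
    exact this

lemma SG_J {s i s' i' m t : ℕ} (hs : s' + t = s + 1) (hi : i' = i + t) {μ : σ →₀ ℕ}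
    (hμ : μ ∈ Mo σ d) (ht : μ c = t) {y : F} (hy : y ∈ SG A c Z s' i' m) :
    S.J μ y ∈ SG A c Z s i m := by
  obtain ⟨h1, h2, h3, h4⟩ := mem_SG.mp hy
  refine ⟨A.GJ ?_, fun x hx => ?_, fun ν hν hb => ?_, ?_⟩
  · have : s + i + 1 = s' + i' := by omega
    rw [this]
    exact h1
  · have := LinearMap.congr_fun (S.TJ x μ) y
    rw [Module.End.mul_apply, Module.End.mul_apply, h2 x hx, map_zero] at this
    exact this
  · have := LinearMap.congr_fun (S.JJ ν μ) y
    rw [Module.End.mul_apply, LinearMap.neg_apply, Module.End.mul_apply, h3 ν hν hb, map_zero,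
      neg_zero] at this
    exact this
  · rw [Pool.Agent.H34.GP.J_wt hμ h4, ht, hi]
    push_cast
    rw [add_sub_cancel_right]

lemma SG_E {s i s' i' m t : ℕ} (hs : s' + t = s + 1) (hi : i' = i + t) {μ : σ →₀ ℕ}
    (hμ : μ ∈ Mo σ d) (ht : μ c = t) (hb : ¬ Bad c Z μ) {y : F} (hy : y ∈ SG A c Z s i m) :
    S.E μ y ∈ SG A c Z s' i' m := by
  obtain ⟨h1, h2, h3, h4⟩ := mem_SG.mp hy
  refine ⟨?_, fun x hx => ?_, fun ν hν hbν => ?_, ?_⟩
  · have : s' + i' = s + i + 1 := by omega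
    rw [this]
    exact A.GE h1
  · have := LinearMap.congr_fun (S.TE x μ) y
    rw [Module.End.mul_apply, Module.End.mul_apply, h2 x hx, map_zero] at this
    exact this
  · have := LinearMap.congr_fun (S.JE ν hν μ hμ (by rintro rfl; exact hb hbν)) y
    rw [Module.End.mul_apply, LinearMap.neg_apply, Module.End.mul_apply, h3 ν hν hbν, map_zero,
      neg_zero] at this
    exact this
  · have := LinearMap.congr_fun (S.D_Ee (c := X c) c
      (isHomogeneous_monomial (1 : k) (mem_Mo.mp hμ))) y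
    rw [Module.End.mul_apply, LinearMap.add_apply, Module.End.mul_apply, S.Ee_monomial hμ, h4,
      X_pd_mon, map_smul, map_smul, LinearMap.smul_apply, S.Ee_monomial hμ, ht] at this
    rw [this, ← add_smul, hi]
    push_cast
    rfl

open Classical in
/-- the part of the differential given by the letters of `c`-degree `t`, divided by `c ^ t` -/
noncomputable def dT (S : Fk σ k (Module.End k F) d) (c : σ) (Z : Finset σ) (t : ℕ) :
    Module.End k F :=
  ∑ μ ∈ (Mo σ d).filter (fun μ => μ c = t ∧ ¬ Bad c Z μ), S.m (monomial (μ.erase c) 1) * S.J μ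

lemma mon_erase (μ : σ →₀ ℕ) :
    (monomial μ (1 : k)) = X c ^ (μ c) * monomial (μ.erase c) 1 := by
  rw [X_pow_eq_monomial, monomial_mul, one_mul]
  congr 1
  rw [Finsupp.single_add_erase]

lemma pd_erase (μ : σ →₀ ℕ) : pderiv c (monomial (μ.erase c) (1 : k)) = 0 := by
  rw [pderiv_monomial, Finsupp.erase_same, Nat.cast_zero, mul_zero, monomial_zero]

lemma del_SG {s i m : ℕ} {y : F} (hy : y ∈ SG A c Z s i m) :
    S.del y = dT S c Z 0 y + S.m (X c) (dT S c Z 1 y) := by
  classical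
  obtain ⟨h1, h2, h3, h4⟩ := mem_SG.mp hy
  unfold dT
  rw [Fk.del_eq, LinearMap.sum_apply, LinearMap.sum_apply, LinearMap.sum_apply, map_sum,
    Finset.sum_filter, Finset.sum_filter, ← Finset.sum_add_distrib]
  refine Finset.sum_congr rfl fun μ hμ => ?_
  by_cases hb : Bad c Z μ
  · rw [if_neg (fun h => h.2 hb), if_neg (fun h => h.2 hb), add_zero, Module.End.mul_apply,
      h3 μ hμ hb, map_zero]
  · have hlt : μ c < 2 := by
      by_contra h
      exact hb (Or.inl (by omega))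
    rcases Nat.lt_or_ge (μ c) 1 with h0 | h0
    · have h5 : μ c = 0 := by omega
      rw [if_pos ⟨h5, hb⟩, if_neg (fun h => by omega), add_zero, Module.End.mul_apply,
        Module.End.mul_apply, mon_erase (c := c) μ, h5, pow_zero, one_mul]
    · have h5 : μ c = 1 := by omega
      rw [if_neg (fun h => by omega), if_pos ⟨h5, hb⟩, zero_add, Module.End.mul_apply,
        Module.End.mul_apply, mon_erase (c := c) μ, h5, pow_one, map_mul, Module.End.mul_apply]

lemma T_dT {t : ℕ} {y : F} (h : S.T c y = 0) : S.T c (dT S c Z t y) = 0 := by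
  classical
  unfold dT
  rw [LinearMap.sum_apply, map_sum]
  refine Finset.sum_eq_zero fun μ _ => ?_
  have e1 := LinearMap.congr_fun (S.Tm c (monomial (μ.erase c) 1)) (S.J μ y)
  have e2 := LinearMap.congr_fun (S.TJ c μ) y
  rw [Module.End.mul_apply, Module.End.mul_apply, h, map_zero] at e2
  rw [Module.End.mul_apply, LinearMap.add_apply, Module.End.mul_apply, e2, pd_erase, map_zero,
    map_zero, LinearMap.zero_apply, add_zero] at e1
  rw [Module.End.mul_apply, e1]

lemma Gam_dT (hc : c ∉ Z) {s i m t : ℕ} (ht : t ≤ 1) {y : F} (hy : y ∈ Gam A c Z s i m) :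
    dT S c Z t y = 0 := by
  obtain ⟨h1, h2⟩ := mem_Gam.mp hy
  have hT := h1.2.1 c hc
  rw [del_SG h1] at h2
  have h3 : dT S c Z 1 y = 0 := by
    have e1 := congrArg (S.T c) h2
    have e2 := LinearMap.congr_fun (S.Tm c (X c)) (dT S c Z 1 y)
    rw [Module.End.mul_apply, LinearMap.add_apply, Module.End.mul_apply, T_dT hT, map_zero,
      zero_add, pderiv_X_self, map_one, Module.End.one_apply] at e2
    rw [map_add, T_dT hT, zero_add, map_zero, e2] at e1
    exact e1
  rcases Nat.lt_or_ge t 1 with h0 | h0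
  · have : t = 0 := by omega
    subst this
    rw [h3, map_zero, add_zero] at h2
    exact h2
  · have : t = 1 := by omega
    subst this
    exact h3

lemma Gam_m (hc : c ∉ Z) {s i m e : ℕ} {a : MvPolynomial σ k} (ha : a.IsHomogeneous e)
    (hx : ∀ x, x ∉ Z → pderiv x a = 0) {y : F} (hy : y ∈ Gam A c Z s i m) :
    S.m a y ∈ Gam A c Z s i (m + e) :=
  mem_Gam.mpr ⟨SG_m hc ha hx (mem_Gam.mp hy).1, m_cycle a (mem_Gam.mp hy).2⟩

lemma Gam_J {s i s' i' m t : ℕ} (hs : s' + t = s + 1) (hi : i' = i + t) {μ : σ →₀ ℕ}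
    (hμ : μ ∈ Mo σ d) (ht : μ c = t) {y : F} (hy : y ∈ Gam A c Z s' i' m) :
    S.J μ y ∈ Gam A c Z s i m :=
  mem_Gam.mpr ⟨SG_J hs hi hμ ht (mem_Gam.mp hy).1, J_cycle μ (mem_Gam.mp hy).2⟩

open Classical in
/-- the number of letters of `c`-degree `t` -/
lemma SG_num (hc : c ∉ Z) {s i m t : ℕ} (ht : t ≤ 1) {y : F} (hy : y ∈ SG A c Z s i m) :
    ∑ μ ∈ (Mo σ d).filter (fun μ => μ c = t ∧ ¬ Bad c Z μ), S.E μ (S.J μ y)
      = ((if t = 0 then s else i : ℕ) : k) • y := by
  obtain ⟨h1, h2, h3, h4⟩ := mem_SG.mp hy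
  have hlt : ∀ μ ∈ Mo σ d, ¬ Bad c Z μ → μ c < 2 := by
    intro μ _ hb
    by_contra h
    exact hb (Or.inl (by omega))
  have g1 : ∑ μ ∈ (Mo σ d).filter (fun μ => μ c = 1 ∧ ¬ Bad c Z μ), S.E μ (S.J μ y)
      = (i : k) • y := by
    have e1 := D_diag (S := S) c y
    rw [h4, h2 c hc, map_zero, zero_add] at e1
    rw [e1, Finset.sum_filter]
    refine Finset.sum_congr rfl fun μ hμ => ?_
    by_cases hb : Bad c Z μ
    · rw [if_neg (fun h => h.2 hb), h3 μ hμ hb, map_zero, smul_zero]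
    · have := hlt μ hμ hb
      by_cases h5 : μ c = 1
      · rw [if_pos ⟨h5, hb⟩, h5, Nat.cast_one, one_smul]
      · rw [if_neg (fun h => h5 h.1), show μ c = 0 by omega, Nat.cast_zero, zero_smul]
  rcases Nat.lt_or_ge t 1 with h0 | h0
  · have h00 : t = 0 := by omega
    subst h00
    rw [if_pos rfl]
    have e1 := A.num h1
    have e2 : ∑ μ ∈ Mo σ d, S.E μ (S.J μ y)
        = ∑ μ ∈ (Mo σ d).filter (fun μ => μ c = 0 ∧ ¬ Bad c Z μ), S.E μ (S.J μ y)
          + ∑ μ ∈ (Mo σ d).filter (fun μ => μ c = 1 ∧ ¬ Bad c Z μ), S.E μ (S.J μ y) := by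
      rw [Finset.sum_filter, Finset.sum_filter, ← Finset.sum_add_distrib]
      refine Finset.sum_congr rfl fun μ hμ => ?_
      by_cases hb : Bad c Z μ
      · rw [if_neg (fun h => h.2 hb), if_neg (fun h => h.2 hb), h3 μ hμ hb, map_zero, add_zero]
      · have := hlt μ hμ hb
        rcases Nat.lt_or_ge (μ c) 1 with h5 | h5
        · rw [if_pos ⟨by omega, hb⟩, if_neg (fun h => by omega), add_zero]
        · rw [if_neg (fun h => by omega), if_pos ⟨by omega, hb⟩, zero_add]
    rw [e2, g1, Nat.cast_add, add_smul] at e1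
    exact add_right_cancel e1
  · have h11 : t = 1 := by omega
    subst h11
    rw [if_neg one_ne_zero]
    exact g1

/-- the other direction of `Gam_dT` -/
lemma del_of_dT {s i m : ℕ} {y : F} (hy : y ∈ SG A c Z s i m) (h0 : dT S c Z 0 y = 0)
    (h1 : dT S c Z 1 y = 0) : S.del y = 0 := by
  rw [del_SG hy, h0, h1, map_zero, add_zero]

end

end Pool.Agent.H95.OP
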