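import Pool.Agent.H12.OP.TDefs

set_option autoImplicit false
set_option linter.unusedSectionVars false

/-!
# Full Ottaviani-Paoletti, part (T1): nilpotency of `X x ∂_o`
-/

open MvPolynomial

namespace Pool.Agent.H95.OP

open Pool.Agent.H27.OP Pool.Agent.H80.OP Pool.Agent.H20.OPF Pool.Agent.H12.OP

variable {σ k F : Type} [Fintype σ] [Field k] [AddCommGroup F] [Module k F] {e : ℕ}

/-- `X x ∂_o` is nilpotent on every graded piece -/
theorem nil_D [CharZero k] {S : Fk σ k (Module.End k F) (e + 1)} (A : Gr S) {o x : σ}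
    (hx : x ≠ o) (p m : ℕ) : ∃ N : ℕ, ∀ ω ∈ A.G p m, (S.D (X x) o ^ N) ω = 0 := by
  have hX : ∀ x : σ, (X x : MvPolynomial σ k).IsHomogeneous 1 := fun x => isHomogeneous_X _ _
  refine ⟨m + (e + 1) * p + 1, fun ω hω => ?_⟩
  have h1 := jeig (fun x : σ => S.D (X x) x) (Finset.univ : Finset σ).toList (A.G p m)
    (fun x _ w hw => D_mem A hw (hX x) x)
    (fun x _ w hw => Dxx_LF A x hw) (fun x _ y _ => D_comm_diag x y) hω
  suffices H : Submodule.span k {v | v ∈ A.G p m ∧ ∀ i ∈ (Finset.univ : Finset σ).toList,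
      ∃ n : ℕ, (fun x : σ => S.D (X x) x) i v = (n : k) • v} ≤
      LinearMap.ker (S.D (X x) o ^ (m + (e + 1) * p + 1)) from LinearMap.mem_ker.mp (H h1)
  refine Submodule.span_le.mpr ?_
  rintro v ⟨hv, hv'⟩
  rw [SetLike.mem_coe, LinearMap.mem_ker]
  choose w hw using fun x : σ => hv' x (by simp)
  by_cases hv0 : v = 0
  · rw [hv0, map_zero]
  have hs := wt_sum A hv hv0 hw
  have hwo : w o ≤ m + (e + 1) * p := by
    rw [← hs]
    exact Finset.single_le_sum (fun _ _ => Nat.zero_le _) (Finset.mem_univ o)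
  -- commutation
  have hc : S.D (X o) o * S.D (X x) o = S.D (X x) o * S.D (X o) o - S.D (X x) o := by
    have h0 : S.D (0 : MvPolynomial σ k) o = 0 := by
      have := S.D_smul 0 (0 : MvPolynomial σ k) o
      simpa using this
    have h2 := S.D_D (hX o) (hX x) o o
    rw [pderiv_X_of_ne hx, pderiv_X_self, mul_zero, mul_one, h0] at h2
    rw [h2, add_zero]
  have hE : ∀ j : ℕ, (S.D (X x) o ^ j) v ∈ A.G p m ∧
      S.D (X o) o ((S.D (X x) o ^ j) v) = ((w o : k) - j) • (S.D (X x) o ^ j) v := by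
    intro j
    induction j with
    | zero => simpa using ⟨hv, hw o⟩
    | succ j ih =>
      obtain ⟨i1, i2⟩ := ih
      rw [pow_succ', Module.End.mul_apply]
      refine ⟨D_mem A i1 (hX x) o, ?_⟩
      have := congrArg (fun T : Module.End k F => T ((S.D (X x) o ^ j) v)) hc
      simp only [Module.End.mul_apply, LinearMap.sub_apply] at this
      rw [this, i2, map_smul]
      nth_rewrite 2 [← one_smul k (S.D (X x) o ((S.D (X x) o ^ j) v))]
      rw [← sub_smul]
      congr 1
      push_cast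
      ring
  obtain ⟨i1, i2⟩ := hE (m + (e + 1) * p + 1)
  obtain ⟨M, hM⟩ := Dxx_LF A o i1
  rw [dp_eig _ i2] at hM
  rcases smul_eq_zero.mp hM with h3 | h3
  · exfalso
    obtain ⟨i, _, hi⟩ := Finset.prod_eq_zero_iff.mp h3
    have h4 : (w o : k) = ((m + (e + 1) * p + 1 + i : ℕ) : k) := by
      push_cast
      push_cast at hi
      linear_combination hi
    have h5 := Nat.cast_injective h4
    omega
  · exact h3

end Pool.Agent.H95.OP
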