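import Pool.Agent.H12.OP.T2b
import Pool.Agent.H80.OP.Wts

set_option autoImplicit false
set_option linter.unusedSectionVars false

/-!
# Full Ottaviani-Paoletti, part (T2f): `X x ∂_y` (`x, y ≠ o`) and `X o ∂_o` on the bicomplex
-/

open MvPolynomial

namespace Pool.Agent.H95.OP

open Pool.Agent.H27.OP Pool.Agent.H80.OP Pool.Agent.H20.OPF Pool.Agent.H12.OP

section ring

variable {σ k O : Type*} [Fintype σ] [Field k] [Ring O] [Algebra k O] {d : ℕ}

lemma cpd_coeff {o x y : σ} (h : (x ≠ o ∧ y ≠ o) ∨ (x = o ∧ y = o)) (μ ν : σ →₀ ℕ)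
    (hc : coeff ν (X x * pderiv y (monomial μ (1 : k))) ≠ 0) : ν o = μ o := by
  classical
  rw [pderiv_monomial, one_mul, X, monomial_mul, one_mul, coeff_monomial] at hc
  split_ifs at hc with h1
  · have h2 : μ y ≠ 0 := by
      intro h3
      rw [h3, Nat.cast_zero] at hc
      exact hc rfl
    rw [← h1]
    rcases h with ⟨hx, hy⟩ | ⟨hx, hy⟩
    · rw [Finsupp.add_apply, Finsupp.tsub_apply, Finsupp.single_eq_of_ne hx.symm,
        Finsupp.single_eq_of_ne hy.symm]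
      omega
    · subst hx
      subst hy
      rw [Finsupp.add_apply, Finsupp.tsub_apply, Finsupp.single_eq_same]
      omega
  · exact absurd rfl hc

/-- indicator of the letters without `x_o` -/
def g0 (k : Type*) [Field k] (o : σ) (μ : σ →₀ ℕ) : k := if μ o = 0 then 1 else 0

lemma N0_Ng (S : Fk σ k O d) (o : σ) : N0 S o = Ng S (g0 k o) := by
  unfold N0
  rw [Ng_eq, Finset.sum_filter]
  refine Finset.sum_congr rfl fun μ _ => ?_
  unfold g0
  split_ifs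
  · rw [one_smul]
  · rw [zero_smul]

lemma dS_dl (S : Fk σ k O d) (o : σ) : dS S o = dl S (dg (g0 k o)) := by
  unfold dS dl
  rw [Finset.sum_filter]
  refine Finset.sum_congr rfl fun μ _ => ?_
  rw [dg_mon]
  unfold g0
  split_ifs
  · rw [one_smul]
  · rw [zero_smul, map_zero, zero_mul]

lemma N0_D (S : Fk σ k O d) {o x y : σ} (h : (x ≠ o ∧ y ≠ o) ∨ (x = o ∧ y = o)) :
    N0 S o * S.D (X x) y = S.D (X x) y * N0 S o := by
  rw [N0_Ng, Pool.Agent.H80.OP.D_eq, mul_add, add_mul, ← mul_assoc, Ng_m, mul_assoc, Ng_T,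
    ← mul_assoc, Ng_QT S (g0 k o) (t := 0) (HD_cpd (isHomogeneous_X _ _) y), zero_smul, add_zero]
  intro μ _ ν _ hc
  rw [add_zero]
  have := cpd_coeff h μ ν hc
  unfold g0
  rw [this]

lemma dS_D (S : Fk σ k O d) {o x y : σ} (h : (x ≠ o ∧ y ≠ o) ∨ (x = o ∧ y = o)) :
    S.D (X x) y * dS S o = dS S o * S.D (X x) y := by
  have h1 : dl S (Fk.cpd (X x) y ∘ₗ dg (g0 k o)) = dl S (dg (g0 k o) ∘ₗ Fk.cpd (X x) y) := by
    refine dl_congr S fun μ _ => ?_
    rw [LinearMap.comp_apply, LinearMap.comp_apply, dg_mon, map_smul]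
    ext ν
    rw [coeff_smul, coeff_dg, smul_eq_mul]
    by_cases hc : coeff ν (Fk.cpd (X x) y (monomial μ (1 : k))) = 0
    · rw [hc, mul_zero, mul_zero]
    · congr 1
      unfold g0
      rw [cpd_coeff h μ ν hc]
  rw [dS_dl, D_dl S (isHomogeneous_X _ _), h1, add_sub_assoc, sub_self, add_zero]

end ring

variable {σ k F : Type} [Fintype σ] [Field k] [AddCommGroup F] [Module k F] {e : ℕ}
variable {S : Fk σ k (Module.End k F) (e + 1)} {A : Gr S} {o : σ} {K : BiK k F e}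

lemma evl {T T' : Module.End k F} (h : T = T') (ω : F) : T ω = T' ω := by rw [h]

lemma dA_D (A : Gr S) {x y : σ} (hx : x ≠ o) (hy : y ≠ o) (ω : F) :
    S.D (X x) y (dA S o ω) = dA S o (S.D (X x) y ω) := by
  have h1 := evl (S.D_del (c := X x) (isHomogeneous_X _ _) y) ω
  rw [del_eq_dS_dA S o] at h1
  simp only [Module.End.mul_apply, LinearMap.add_apply, map_add] at h1
  have h2 := evl (dS_D S (o := o) (Or.inl ⟨hx, hy⟩)) ω
  simp only [Module.End.mul_apply] at h2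
  have h3 := evl (S.D_m (c := X x) y (X o)) (dA S o ω)
  rw [pderiv_X_of_ne (Ne.symm hy), mul_zero, map_zero, add_zero] at h3
  simp only [Module.End.mul_apply] at h3
  rw [h2, h3] at h1
  have h4 := add_left_cancel h1
  have h5 : S.m (X o) (S.D (X x) y (dA S o ω) - dA S o (S.D (X x) y ω)) = 0 := by
    rw [map_sub, h4, sub_self]
  exact sub_eq_zero.mp (A.inj o _ h5)

lemma T_D {x y : σ} (hx : x ≠ o) (ω : F) :
    S.T o (S.D (X x) y ω) = S.D (X x) y (S.T o ω) := by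
  have h := evl (S.D_T (X x) y o) ω
  rw [pderiv_X_of_ne hx, map_zero, zero_mul, sub_zero] at h
  simp only [Module.End.mul_apply] at h
  exact h.symm

lemma rho_D (C : Cmp S A o K) {x y : σ} (hx : x ≠ o) (hy : y ≠ o) (ω : F) :
    K.rho (S.D (X x) y ω) = S.D (X x) y (K.rho ω) := by
  have h1 : ω = K.rho ω + S.m (X o) (A.dv o ω) := by
    rw [C.rho_eq]
    exact A.rho_dv o ω
  have h3 := evl (S.D_m (c := X x) y (X o)) (A.dv o ω)
  rw [pderiv_X_of_ne (Ne.symm hy), mul_zero, map_zero, add_zero] at h3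
  simp only [Module.End.mul_apply] at h3
  have h2 : K.rho (S.D (X x) y ω) = K.rho (S.D (X x) y (K.rho ω)) := by
    conv_lhs => rw [h1]
    rw [map_add, map_add, h3, C.rho_eq (S.m (X o) _), A.rho_X, add_zero]
  rw [h2]
  refine C.rho_of_T _ ?_
  rw [T_D hx, C.T_rho, map_zero]

theorem Dxy_G (C : Cmp S A o K) {x y : σ} (hx : x ≠ o) (hy : y ≠ o) {a b m : ℕ} {ω : F}
    (h : ω ∈ K.G a b m) : S.D (X x) y ω ∈ K.G a b m := by
  obtain ⟨h1, h2⟩ := C.G_iff.mp h
  refine C.G_iff.mpr ⟨D_mem A h1 (isHomogeneous_X _ _) y, ?_⟩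
  have h3 := evl (N0_D S (o := o) (Or.inl ⟨hx, hy⟩)) ω
  simp only [Module.End.mul_apply] at h3
  rw [h3, h2, map_smul]

theorem Doo_G (C : Cmp S A o K) {a b m : ℕ} {ω : F}
    (h : ω ∈ K.G a b m) : S.D (X o) o ω ∈ K.G a b m := by
  obtain ⟨h1, h2⟩ := C.G_iff.mp h
  refine C.G_iff.mpr ⟨D_mem A h1 (isHomogeneous_X _ _) o, ?_⟩
  have h3 := evl (N0_D S (o := o) (Or.inr ⟨rfl, rfl⟩)) ω
  simp only [Module.End.mul_apply] at h3
  rw [h3, h2, map_smul]

theorem Dxy_GZ' (C : Cmp S A o K) {x y : σ} (hx : x ≠ o) (hy : y ≠ o) {s i m : ℕ}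
    {z : F} (h : z ∈ GZ S o K s i m) : S.D (X x) y z ∈ GZ S o K s i m := by
  obtain ⟨h1, h2⟩ := mem_GZ.mp h
  obtain ⟨h3, h4, h5, h6⟩ := mem_Cl.mp h1
  refine mem_GZ.mpr ⟨mem_Cl.mpr ⟨Dxy_G C hx hy h3, ?_, ?_, ?_⟩, ?_⟩
  · rw [rho_D C hx hy, h4]
  · have h7 := evl (dS_D S (o := o) (Or.inl ⟨hx, hy⟩)) z
    simp only [Module.End.mul_apply] at h7
    rw [C.dS_eq] at h5 ⊢
    rw [← h7, h5, map_zero]
  · rw [C.dA_eq] at h6 ⊢
    rw [← dA_D A hx hy, rho_D C hx hy, h6, map_zero]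
  · intro μ hμ h7
    have h8 := evl (S.D_J (X x) y hμ) z
    simp only [Module.End.mul_apply, LinearMap.sub_apply] at h8
    rw [h2 μ hμ h7, map_zero, LinearMap.sum_apply, Finset.sum_eq_zero, sub_zero] at h8
    · exact h8.symm
    · intro ν hν
      rw [LinearMap.smul_apply]
      by_cases hc : coeff μ (X x * pderiv y (monomial ν (1 : k))) = 0
      · rw [hc, zero_smul]
      · have h9 := cpd_coeff (Or.inl ⟨hx, hy⟩) ν μ hc
        rw [h2 ν hν (by omega), smul_zero]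

theorem Dxy_GZ [CharZero k] (C : Cmp S A o K) {x y : σ} (hx : x ≠ o) (hy : y ≠ o) {s i m : ℕ}
    {z : F} (h : z ∈ GZ S o K s i m) : S.D (X x) y z ∈ GZ S o K s i m :=
  Dxy_GZ' C hx hy h

end Pool.Agent.H95.OP
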